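import Pool.Agent.N569.VT.Defs

/-!
# VT3: expansions of words with bounds in all linkages (helper519; adapted from `N569/TW`)
-/

set_option autoImplicit false

namespace Pool.Agent.N519.VT

open Pool.Agent.H891R2.Jones Pool.Agent.W639.RB Pool.Agent.TH561 Pool.Agent.N569.TW Pool.Agent.N569.VT
  Finset LaurentPolynomial

variable {m : ℕ}

/-- the facts about linkages which are used -/
structure Hy (m : ℕ) : Prop where
  mul : ∀ (X Y : Lk m) (N : ℕ), (X.mul Y).mat N = X.mat N * Y.mat N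
  one : ∀ N : ℕ, (Lk.one m).mat N = 1
  e : ∀ i : ℕ, i + 1 < m → ∀ N : ℕ, (Lk.e m i).mat N = KK m N i
  tr : ∀ (X : Lk m) (L : List ℕ), (∀ i ∈ L, i + 1 < m) → ∀ N : ℕ,
    Matrix.trace (X.mat N * WP (KK m N) L) = (N : ℂ) ^ X.lam L
  add : ∀ (X : Lk m) (L : List ℕ), (∀ i ∈ L, i + 1 < m) → ∀ i : ℕ, i + 1 < m →
    X.lam (L ++ [i]) ≤ X.lam L + 1

theorem Hy.word (H : Hy m) (L : List ℕ) (hL : ∀ i ∈ L, i + 1 < m) (N : ℕ) :
    (Lk.word m L).mat N = WP (KK m N) L := by
  induction L with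
  | nil =>
    rw [Lk.word, H.one, WP_nil]
  | cons i L ih =>
    rw [Lk.word, H.mul, H.e i (hL i List.mem_cons_self), ih (fun j hj => hL j (List.mem_cons_of_mem _ hj)),
      WP_cons]

theorem pow_inj {a b : ℕ} (h : ((2 : ℕ) : ℂ) ^ a = ((2 : ℕ) : ℂ) ^ b) : a = b := by
  have h1 : (2 : ℕ) ^ a = 2 ^ b := by exact_mod_cast h
  exact Nat.pow_right_injective le_rfl h1

theorem Hy.congr (H : Hy m) (X : Lk m) (L L' : List ℕ) (hL : ∀ i ∈ L, i + 1 < m)
    (hL' : ∀ i ∈ L', i + 1 < m) (h : WP (KK m 2) L = WP (KK m 2) L') : X.lam L = X.lam L' := by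
  apply pow_inj
  rw [← H.tr X L hL 2, ← H.tr X L' hL' 2, h]

theorem Hy.ctx (H : Hy m) (X : Lk m) (A B : List ℕ) (hA : ∀ i ∈ A, i + 1 < m)
    (hB : ∀ i ∈ B, i + 1 < m) : ∃ X' : Lk m, ∀ L : List ℕ, (∀ i ∈ L, i + 1 < m) →
      X'.lam L = X.lam (A ++ L ++ B) := by
  refine ⟨(Lk.word m B).mul (X.mul (Lk.word m A)), fun L hL => ?_⟩
  apply pow_inj
  rw [← H.tr _ L hL 2, ← H.tr X (A ++ L ++ B) (by
    intro i hi
    rcases List.mem_append.1 hi with hi | hi
    · rcases List.mem_append.1 hi with hi | hi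
      · exact hA i hi
      · exact hL i hi
    · exact hB i hi) 2, H.mul, H.mul, H.word A hA, H.word B hB, WP_append, WP_append,
    mul_assoc (WP (KK m 2) B), Matrix.trace_mul_comm]
  simp only [mul_assoc]

theorem BndL.mono {c : ℤ[T;T⁻¹]} {L : List ℕ} {E E' : ℤ} (h : BndL m c L E) (hE : E ≤ E') :
    BndL m c L E' :=
  fun X => (h X).mono (by linarith)

theorem BndL.mul (H : Hy m) {c c' : ℤ[T;T⁻¹]} {L L' : List ℕ} {E E' : ℤ} (hL : ∀ i ∈ L, i + 1 < m)
    (hL' : ∀ i ∈ L', i + 1 < m) (h : BndL m c L E) (h' : BndL m c' L' E') :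
    BndL m (c * c') (L ++ L') (E + E') := by
  intro X
  obtain ⟨X', hX'⟩ := H.ctx X L [] hL (by simp)
  have h1 := h X
  have h2 := h' X'
  rw [hX' [] (by simp), hX' L' hL', List.append_nil, List.append_nil, List.append_nil] at h2
  refine (h1.mul h2).mono (le_of_eq ?_)
  ring

theorem bndL_T (w : ℤ) : BndL m (T w) [] w := by
  intro X
  refine (dg_T w).mono (le_of_eq ?_)
  ring

theorem RepL.nil (m k n : ℕ) : RepL m k n [] 0 0 [] where
  eq N hN := by simp [MR, evS]
  ne t ht := by simp at ht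
  mem t ht := by simp at ht
  bnd t ht := by simp at ht

theorem RepL.letter (H : Hy m) {k n : ℕ} (hkn : k + n ≤ m) (b : Bool) (i : ℕ) (h1 : k ≤ i)
    (h2 : i + 1 < k + n) :
    ∃ S, RepL m k n [(b, i)] (if b then 1 else -1) (if b then 0 else 1) S := by
  refine ⟨[(T (-sgn (b, i)), [i])], ⟨fun N hN => ?_, fun t ht => ?_, fun t ht j hj => ?_, fun t ht => ?_⟩⟩
  · rw [evS_cons, evS_nil, add_zero, ev_T, ev_T]
    have e1 : MR (Ar N) m N [(b, i)] = ML (Ar N) m N (b, i) := by simp [MR]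
    rw [e1, ML]
    congr 1
    simp [WP]
  · rw [List.mem_singleton] at ht
    subst ht
    simp
  · rw [List.mem_singleton] at ht
    subst ht
    simp only [List.mem_singleton] at hj
    subst hj
    exact ⟨h1, h2⟩
  · rw [List.mem_singleton] at ht
    subst ht
    intro X
    have h3 := H.add X [] (by simp) i (by omega)
    rw [List.nil_append] at h3
    have h3' : ((X.lam [i] : ℕ) : ℤ) ≤ X.lam [] + 1 := by exact_mod_cast h3
    refine (dg_T _).mono ?_
    simp only
    cases b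
    · simp only [sgn]
      norm_num
      linarith
    · simp only [sgn]
      norm_num
      linarith

theorem RepL.append (H : Hy m) {k n : ℕ} {U V : List (Bool × ℕ)} {w w' : ℤ} {q q' : ℕ}
    {S S' : List (ℤ[T;T⁻¹] × List ℕ)} (hkn : k + n ≤ m) (h : RepL m k n U w q S)
    (h' : RepL m k n V w' q' S') : ∃ S'', RepL m k n (U ++ V) (w + w') (q + q') S'' := by
  refine ⟨mulS (T w) [] [] S' ++ (mulS (T w') [] [] S ++ prS S S'), ⟨fun N hN => ?_, fun t ht => ?_,
    fun t ht => ?_, fun t ht => ?_⟩⟩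
  · rw [Pool.Agent.N569.TW.MR_append, h.eq N hN, h'.eq N hN, evS_append, evS_append, evS_mulS, evS_mulS, evS_prS, WP_nil,
      one_mul, mul_one, one_mul, mul_one, T_add, map_mul, add_mul, mul_add, mul_add, smul_mul_assoc,
      one_mul, smul_mul_assoc, one_mul, mul_smul_comm, mul_one, smul_smul]
    abel
  · rw [List.mem_append, List.mem_append] at ht
    rcases ht with ht | ht | ht
    · unfold mulS at ht
      rw [List.mem_map] at ht
      obtain ⟨u, hu, rfl⟩ := ht
      simpa using h'.ne u hu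
    · unfold mulS at ht
      rw [List.mem_map] at ht
      obtain ⟨u, hu, rfl⟩ := ht
      simpa using h.ne u hu
    · obtain ⟨u, hu, v, hv, rfl⟩ := mem_prS ht
      simp only [ne_eq, List.append_eq_nil_iff, not_and]
      intro h0
      exact absurd h0 (h.ne u hu)
  · rw [List.mem_append, List.mem_append] at ht
    rcases ht with ht | ht | ht
    · unfold mulS at ht
      rw [List.mem_map] at ht
      obtain ⟨u, hu, rfl⟩ := ht
      simpa using h'.mem u hu
    · unfold mulS at ht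
      rw [List.mem_map] at ht
      obtain ⟨u, hu, rfl⟩ := ht
      simpa using h.mem u hu
    · obtain ⟨u, hu, v, hv, rfl⟩ := mem_prS ht
      intro i hi
      rcases List.mem_append.1 hi with hi | hi
      · exact h.mem u hu i hi
      · exact h'.mem v hv i hi
  · have hm1 : ∀ u ∈ S, ∀ i ∈ u.2, i + 1 < m := fun u hu i hi => by
      have := (h.mem u hu i hi).2; omega
    have hm2 : ∀ u ∈ S', ∀ i ∈ u.2, i + 1 < m := fun u hu i hi => by
      have := (h'.mem u hu i hi).2; omega
    rw [List.mem_append, List.mem_append] at ht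
    rcases ht with ht | ht | ht
    · unfold mulS at ht
      rw [List.mem_map] at ht
      obtain ⟨u, hu, rfl⟩ := ht
      have h1 := BndL.mul H (by simp) (hm2 u hu) (bndL_T (m := m) w) (h'.bnd u hu)
      simp only [List.nil_append, List.append_nil] at h1 ⊢
      refine BndL.mono h1 ?_
      push_cast
      have : (0 : ℤ) ≤ q := by positivity
      linarith
    · unfold mulS at ht
      rw [List.mem_map] at ht
      obtain ⟨u, hu, rfl⟩ := ht
      have h1 := BndL.mul H (by simp) (hm1 u hu) (bndL_T (m := m) w') (h.bnd u hu)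
      simp only [List.nil_append, List.append_nil] at h1 ⊢
      refine BndL.mono h1 ?_
      push_cast
      have : (0 : ℤ) ≤ q' := by positivity
      linarith
    · obtain ⟨u, hu, v, hv, rfl⟩ := mem_prS ht
      have h1 := BndL.mul H (hm1 u hu) (hm2 v hv) (h.bnd u hu) (h'.bnd v hv)
      refine BndL.mono h1 ?_
      push_cast
      linarith

theorem RepL.mono {k n k' n' : ℕ} {U : List (Bool × ℕ)} {w : ℤ} {q q' : ℕ}
    {S : List (ℤ[T;T⁻¹] × List ℕ)} (h : RepL m k n U w q S) (hk : k' ≤ k) (hn : k + n ≤ k' + n')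
    (hq : q ≤ q') : RepL m k' n' U w q' S where
  eq := h.eq
  ne := h.ne
  mem t ht i hi := by
    have := h.mem t ht i hi
    omega
  bnd t ht := BndL.mono (h.bnd t ht) (by
    have : (q : ℤ) ≤ q' := by exact_mod_cast hq
    linarith)

/-- positive words have defect `0` -/
theorem RepL.pos (H : Hy m) {k n : ℕ} (hkn : k + n ≤ m) (U : List (Bool × ℕ))
    (hU : ∀ x ∈ U, x.1 = true ∧ k ≤ x.2 ∧ x.2 + 1 < k + n) :
    ∃ S, RepL m k n U U.length 0 S := by
  induction U with
  | nil => exact ⟨[], by simpa using RepL.nil m k n⟩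
  | cons x U ih =>
    obtain ⟨S, hS⟩ := ih (fun y hy => hU y (List.mem_cons_of_mem _ hy))
    obtain ⟨h1, h2, h3⟩ := hU x List.mem_cons_self
    obtain ⟨b, i⟩ := x
    simp only at h1 h2 h3
    subst h1
    obtain ⟨S1, hS1⟩ := RepL.letter H hkn true i h2 h3
    obtain ⟨S2, hS2⟩ := RepL.append H hkn hS1 hS
    refine ⟨S2, ?_⟩
    rw [if_pos rfl, if_pos rfl] at hS2
    have e1 : (((true, i) :: U).length : ℤ) = 1 + (U.length : ℤ) := by
      push_cast [List.length_cons]
      ring
    rw [e1]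
    exact hS2

theorem RepL.box (H : Hy m) {k n : ℕ} {U : List (Bool × ℕ)} {w : ℤ} {q : ℕ}
    {S : List (ℤ[T;T⁻¹] × List ℕ)} (hkn : k + (n + 2) ≤ m) (h : RepL m k (n + 2) U w q S) (a : ℕ) :
    ∃ S', RepL m k (n + 2) (U ++ TW true (n + 2) k a) (w + a * ((n + 2) * (n + 1)))
      (q - (n + 2) * a) S' := by
  obtain ⟨S1, hS1⟩ := RepL.pos (m := m) H hkn (TW true (n + 2) k a) (by
    intro x hx
    refine ⟨TW_fst _ _ _ _ x hx, ?_⟩
    have h1 := TW_mem (m := k + (n + 2)) true (n + 2) k a le_rfl x hx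
    refine ⟨?_, h1⟩
    unfold TW at hx
    rw [List.mem_flatten] at hx
    obtain ⟨L, hL, hx⟩ := hx
    rw [List.mem_replicate] at hL
    rw [hL.2, List.mem_map] at hx
    obtain ⟨i, hi, rfl⟩ := hx
    have := twistWord_mem (n + 2) k i hi
    exact this.1)
  obtain ⟨S2, hS2⟩ := RepL.pos (m := m) H (k := k + 2) (n := n) (by omega) (TW true n (k + 2) a) (by
    intro x hx
    refine ⟨TW_fst _ _ _ _ x hx, ?_⟩
    have h1 := TW_mem (m := k + 2 + n) true n (k + 2) a le_rfl x hx
    refine ⟨?_, h1⟩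
    unfold TW at hx
    rw [List.mem_flatten] at hx
    obtain ⟨L, hL, hx⟩ := hx
    rw [List.mem_replicate] at hL
    rw [hL.2, List.mem_map] at hx
    obtain ⟨i, hi, rfl⟩ := hx
    have := twistWord_mem n (k + 2) i hi
    exact this.1)
  have hA : ∀ N : ℕ, AA N true = Ar N := fun N => by simp [AA]
  have hw1 : ((TW true (n + 2) k a).length : ℤ) = a * ((n + 2) * (n + 1)) := by
    rw [TW_length]
    push_cast
    ring
  set w2 : ℤ := ((TW true n (k + 2) a).length : ℤ) with hw2
  have hw2' : w2 = a * (n * (n - 1)) := by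
    rw [hw2, TW_length]
    rcases Nat.eq_zero_or_pos n with h0 | h0
    · subst h0; simp
    · push_cast [Nat.cast_sub h0]
      ring
  rw [hw1] at hS1
  have hSm : ∀ t ∈ S, ∀ i ∈ t.2, k ≤ i ∧ i + 1 < k + n + 2 := fun t ht i hi => by
    have := h.mem t ht i hi; omega
  have hbig : w + 4 * (q : ℤ) + (-(6 * a) + w2) ≤
      w + a * ((n + 2) * (n + 1)) + 4 * ((q - (n + 2) * a : ℕ) : ℤ) := by
    have h1 : (q : ℤ) - (n + 2) * a ≤ ((q - (n + 2) * a : ℕ) : ℤ) := by
      have : q ≤ (q - (n + 2) * a) + (n + 2) * a := by omega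
      have h2 : (q : ℤ) ≤ ((q - (n + 2) * a : ℕ) : ℤ) + (n + 2) * a := by exact_mod_cast this
      linarith
    rw [hw2']
    nlinarith
  refine ⟨mulS (T w) [] [] S1 ++ boxS k (T (-(6 * a) + w2)) (T (-(6 * a))) S2 S, ⟨fun N hN => ?_,
    fun t ht => ?_, fun t ht => ?_, fun t ht => ?_⟩⟩
  · have e1 := MR_TW (m := m) N true (n + 2) k a
    have e2 := MR_TW (m := m) N true n (k + 2) a
    rw [hA] at e1 e2
    have e3 := hS2.eq N hN
    rw [e2] at e3
    have e4 := hS1.eq N hN
    rw [Pool.Agent.N569.TW.MR_append, h.eq N hN, evS_append, evS_mulS, WP_nil, one_mul, mul_one, T_add, map_mul,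
      evS_boxS N hN n k a (by omega) w2 S2 e3 S h.ne hSm, add_mul, ← e1, smul_mul_assoc,
      one_mul, mul_smul, ← add_assoc, ← smul_add, ← e4]
  · rw [List.mem_append] at ht
    rcases ht with ht | ht
    · unfold mulS at ht
      rw [List.mem_map] at ht
      obtain ⟨u, hu, rfl⟩ := ht
      simpa using hS1.ne u hu
    · obtain ⟨c, i, L, h1, h2⟩ := mem_boxS ht
      rcases h2 with rfl | ⟨s, hs, rfl⟩
      · simp
      · have := hS2.ne s hs
        simp [this]
  · rw [List.mem_append] at ht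
    rcases ht with ht | ht
    · unfold mulS at ht
      rw [List.mem_map] at ht
      obtain ⟨u, hu, rfl⟩ := ht
      simpa using hS1.mem u hu
    · obtain ⟨c, i, L, h1, h2⟩ := mem_boxS ht
      have h3 := h.mem _ h1
      simp only at h3
      rcases h2 with rfl | ⟨s, hs, rfl⟩
      · exact h3
      · intro x hx
        have hi := h3 i List.mem_cons_self
        rw [List.mem_append, List.mem_append, List.mem_append] at hx
        rcases hx with (hx | hx) | hx | hx
        · have := dn_mem k (i - k) x hx; omega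
        · have := hS2.mem s hs x hx; omega
        · have := up_mem k (i - k) x hx; omega
        · exact h3 x (List.mem_cons_of_mem _ hx)
  · rw [List.mem_append] at ht
    rcases ht with ht | ht
    · unfold mulS at ht
      rw [List.mem_map] at ht
      obtain ⟨u, hu, rfl⟩ := ht
      have hum : ∀ x ∈ u.2, x + 1 < m := fun x hx => by
        have := (hS1.mem u hu x hx).2; omega
      have h1 := BndL.mul H (by simp) hum (bndL_T (m := m) w) (hS1.bnd u hu)
      simp only [List.nil_append, List.append_nil] at h1 ⊢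
      refine BndL.mono h1 ?_
      push_cast
      have : (0 : ℤ) ≤ ((q - (n + 2) * a : ℕ) : ℤ) := by positivity
      push_cast at this ⊢
      linarith
    · obtain ⟨c, i, L, h1, h2⟩ := mem_boxS ht
      have h3 := h.mem _ h1
      have h4 := h.bnd _ h1
      simp only at h3 h4
      have hLm : ∀ x ∈ i :: L, x + 1 < m := fun x hx => by have := (h3 x hx).2; omega
      rcases h2 with rfl | ⟨s, hs, rfl⟩
      · have h5 := BndL.mul H hLm (by simp) h4 (bndL_T (m := m) (-(6 * a) + w2))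
        rw [List.append_nil] at h5
        exact BndL.mono h5 hbig
      · have hi := h3 i List.mem_cons_self
        have hd : ∀ x ∈ dn k (i - k), x + 1 < m := fun x hx => by
          have := dn_mem k (i - k) x hx; omega
        have hu : ∀ x ∈ up k (i - k), x + 1 < m := fun x hx => by
          have := up_mem k (i - k) x hx; omega
        have h6 := hS2.bnd s hs
        have hsm : ∀ x ∈ s.2, x + 1 < m := fun x hx => by
          have := (hS2.mem s hs x hx).2; omega
        refine BndL.mono ?_ hbig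
        intro X
        have e1 := h4 X
        have h7 : ∀ x ∈ up k (i - k) ++ L, x + 1 < m := fun x hx => by
          rcases List.mem_append.1 hx with hx | hx
          · exact hu x hx
          · exact hLm x (List.mem_cons_of_mem _ hx)
        obtain ⟨X', hX'⟩ := H.ctx X (dn k (i - k)) (up k (i - k) ++ L) hd h7
        have e2 := h6 X'
        have e3 : X'.lam [] = X.lam (i :: L) := by
          rw [hX' [] (by simp), List.append_nil]
          apply H.congr
          · intro x hx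
            rcases List.mem_append.1 hx with hx | hx
            · exact hd x hx
            · exact h7 x hx
          · exact hLm
          · have h4 := dn_up (m := m) 2 k (i - k) (by omega)
            have h5 : k + (i - k) = i := by omega
            rw [h5] at h4
            rw [WP_append, WP_append, WP_cons, ← h4, mul_assoc]
        rw [e3, hX' s.2 hsm] at e2
        have e4 := (e1.mul (dg_T (-(6 * a)))).mul e2
        refine e4.mono (le_of_eq ?_)
        push_cast
        ring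

theorem repL_aux (H : Hy m) (t : Tw) : ∀ n k, t.Fits n k → k + n ≤ m →
    ∃ S, RepL m k n t.word (expo t.word) t.debt S := by
  induction t with
  | nil => intro n k _ _; exact ⟨[], by simpa [Tw.word, expo, Tw.debt] using RepL.nil m k n⟩
  | letter b i t ih =>
    rintro n k ⟨h1, h2, h3⟩ hm
    obtain ⟨S, hS⟩ := ih n k h3 hm
    obtain ⟨S1, hS1⟩ := RepL.letter H hm b i h1 h2
    obtain ⟨S2, hS2⟩ := RepL.append H hm hS1 hS
    refine ⟨S2, ?_⟩
    rw [Tw.word, expo_cons, Tw.debt]
    simp only [sgn]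
    exact hS2
  | box n' k' a u t ihu iht =>
    rintro n k ⟨h1, h2, h3, h4, h5, h6⟩ hm
    obtain ⟨S, hS⟩ := ihu n' k' h5 (by omega)
    obtain ⟨S', hS'⟩ := iht n k h6 hm
    obtain ⟨p, rfl⟩ : ∃ p, n' = p + 2 := ⟨n' - 2, by omega⟩
    obtain ⟨S1, hS1⟩ := RepL.box H (by omega) hS a
    obtain ⟨S2, hS2⟩ := RepL.append H hm (RepL.mono (k' := k) (n' := n) hS1 h3 h4 le_rfl) hS'
    refine ⟨S2, ?_⟩
    rw [Tw.word, expo_append, expo_append, expo_TW _ _ _ (by omega), Tw.debt]
    have e1 : ((p + 2 : ℕ) : ℤ) * (((p + 2 : ℕ) : ℤ) - 1) = ((p : ℤ) + 2) * (p + 1) := by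
      push_cast; ring
    rw [e1]
    exact hS2

/-- VT3 (1) -/
theorem RepL_box
    (mat_mul : ∀ (X Y : Lk m) (N : ℕ), (X.mul Y).mat N = X.mat N * Y.mat N)
    (mat_one : ∀ N : ℕ, (Lk.one m).mat N = 1)
    (mat_e : ∀ i : ℕ, i + 1 < m → ∀ N : ℕ, (Lk.e m i).mat N = KK m N i)
    (trace_lam : ∀ (X : Lk m) (L : List ℕ), (∀ i ∈ L, i + 1 < m) → ∀ N : ℕ,
      Matrix.trace (X.mat N * WP (KK m N) L) = (N : ℂ) ^ X.lam L)
    (lam_add : ∀ (X : Lk m) (L : List ℕ), (∀ i ∈ L, i + 1 < m) → ∀ i : ℕ, i + 1 < m →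
      X.lam (L ++ [i]) ≤ X.lam L + 1)
    {k n : ℕ} {U : List (Bool × ℕ)} {w : ℤ} {q : ℕ} {S : List (ℤ[T;T⁻¹] × List ℕ)}
    (hkn : k + (n + 2) ≤ m) (h : RepL m k (n + 2) U w q S) (a : ℕ) :
    ∃ S', RepL m k (n + 2) (U ++ TW true (n + 2) k a) (w + a * ((n + 2) * (n + 1)))
      (q - (n + 2) * a) S' :=
  RepL.box ⟨mat_mul, mat_one, mat_e, trace_lam, lam_add⟩ hkn h a

/-- VT3 (2) -/
theorem repL
    (mat_mul : ∀ (X Y : Lk m) (N : ℕ), (X.mul Y).mat N = X.mat N * Y.mat N)
    (mat_one : ∀ N : ℕ, (Lk.one m).mat N = 1)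
    (mat_e : ∀ i : ℕ, i + 1 < m → ∀ N : ℕ, (Lk.e m i).mat N = KK m N i)
    (trace_lam : ∀ (X : Lk m) (L : List ℕ), (∀ i ∈ L, i + 1 < m) → ∀ N : ℕ,
      Matrix.trace (X.mat N * WP (KK m N) L) = (N : ℂ) ^ X.lam L)
    (lam_add : ∀ (X : Lk m) (L : List ℕ), (∀ i ∈ L, i + 1 < m) → ∀ i : ℕ, i + 1 < m →
      X.lam (L ++ [i]) ≤ X.lam L + 1)
    (t : Tw) : ∀ n k, t.Fits n k → k + n ≤ m → ∃ S, RepL m k n t.word (expo t.word) t.debt S :=
  repL_aux ⟨mat_mul, mat_one, mat_e, trace_lam, lam_add⟩ t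

end Pool.Agent.N519.VT
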